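import Mathlib
import Pool.Agent.Lib.MP_67c69b_co.Defs
import Pool.Agent.Lib.MP_67c69b_co.Theta
import Pool.Agent.Lib.MP_67c69b_co.DataEven

set_option autoImplicit false

namespace Pool.Agent.Results.MP_67c69b_co.EvenGirthThree

open Pool.Agent.Lib.MP_67c69b_co

theorem result : ∃ G : SimpleGraph (Fin 22), DiamMaximal 5 4 G ∧ G.girth = 3 := by
  have hG := mkG_adj 22 DataEven.a DataEven.c_sym
  have s5 : √5 ^ 2 = 5 := Real.sq_sqrt (by norm_num)
  have p5 : 0 < √5 := Real.sqrt_pos.2 (by norm_num)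
  obtain ⟨hc, hd⟩ := diam_of hG DataEven.c_dist DataEven.c_pot 6 0 (by decide +kernel)
    (by decide +kernel)
  obtain ⟨θ, h1, h2⟩ := theta_even
  refine ⟨mkG 22 DataEven.a, ⟨hc, regular_of hG DataEven.c_reg, hd, θ, h1, ?_⟩, ?_⟩
  · rw [h2]
    exact algConn_eq hG DataEven.c_reg _ _ _ _ _ _ _ _ _ DataEven.c_pq DataEven.c_dd
      (by norm_num) (by norm_num) √5 (-√5) (by norm_num) (by push_cast; nlinarith) (by linarith)
      (by push_cast; nlinarith) (by push_cast; nlinarith) (by linarith) 0 0
      DataEven.c_P0 DataEven.c_Q0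
  · let w : (mkG 22 DataEven.a).Walk 1 1 :=
      .cons (v := 12) ((hG _ _).2 (by decide +kernel))
        (.cons (v := 13) ((hG _ _).2 (by decide +kernel))
          (.cons (v := 1) ((hG _ _).2 (by decide +kernel)) .nil))
    have hw : w.IsCycle := by
      rw [SimpleGraph.Walk.isCycle_def, SimpleGraph.Walk.isTrail_def]
      refine ⟨?_, ?_, ?_⟩
      · simp only [w, SimpleGraph.Walk.edges_cons, SimpleGraph.Walk.edges_nil]; decide
      · simp [w]
      · simp only [w, SimpleGraph.Walk.support_cons, SimpleGraph.Walk.support_nil]; decide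
    exact le_antisymm (SimpleGraph.girth_le_length hw)
      (SimpleGraph.three_le_girth (fun h => h _ hw))

end Pool.Agent.Results.MP_67c69b_co.EvenGirthThree
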