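import Mathlib
import Pool.Agent.Lib.MP_67c69b_co.Defs
import Pool.Agent.Lib.MP_67c69b_co.Theta
import Pool.Agent.Lib.MP_67c69b_co.DataOdd

set_option autoImplicit false

namespace Pool.Agent.Results.MP_67c69b_co.OddGirthFour

open Pool.Agent.Lib.MP_67c69b_co

lemma parity :
    all2 (fun i j => !DataOdd.a i j || (DataOdd.T 0 i + DataOdd.T 0 j) % 2 == 1) 34 = true := by
  decide +kernel

theorem result : ∃ G : SimpleGraph (Fin 34), DiamMaximal 4 5 G ∧ G.girth = 4 := by
  have hG := mkG_adj 34 DataOdd.a DataOdd.c_sym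
  have s13 : √13 ^ 2 = 13 := Real.sq_sqrt (by norm_num)
  have p13 : 0 < √13 := Real.sqrt_pos.2 (by norm_num)
  have u13 : √13 < 4 := by nlinarith
  have v13 : 7 / 2 < √13 := by nlinarith
  obtain ⟨hc, hd⟩ := diam_of hG DataOdd.c_dist DataOdd.c_pot 17 0 (by decide +kernel)
    (by decide +kernel)
  obtain ⟨θ, h1, h2⟩ := theta_odd
  refine ⟨mkG 34 DataOdd.a, ⟨hc, regular_of hG DataOdd.c_reg, hd, θ, h1, ?_⟩, ?_⟩
  · rw [h2]
    exact algConn_eq hG DataOdd.c_reg _ _ _ _ _ _ _ _ _ DataOdd.c_pq DataOdd.c_dd
      (by norm_num) (by norm_num) ((1 + √13) / 2) ((1 - √13) / 2) (by push_cast; ring)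
      (by push_cast; nlinarith) (by linarith)
      (by push_cast; nlinarith) (by push_cast; nlinarith) (by linarith) 0 0
      DataOdd.c_P0 DataOdd.c_Q0
  · let w : (mkG 34 DataOdd.a).Walk 1 1 :=
      .cons (v := 5) ((hG _ _).2 (by decide +kernel))
        (.cons (v := 22) ((hG _ _).2 (by decide +kernel))
          (.cons (v := 6) ((hG _ _).2 (by decide +kernel))
            (.cons (v := 1) ((hG _ _).2 (by decide +kernel)) .nil)))
    have hw : w.IsCycle := by
      rw [SimpleGraph.Walk.isCycle_def, SimpleGraph.Walk.isTrail_def]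
      refine ⟨?_, ?_, ?_⟩
      · simp only [w, SimpleGraph.Walk.edges_cons, SimpleGraph.Walk.edges_nil]; decide
      · simp [w]
      · simp only [w, SimpleGraph.Walk.support_cons, SimpleGraph.Walk.support_nil]; decide
    refine le_antisymm (SimpleGraph.girth_le_length hw) ?_
    obtain ⟨x, p, hp, hl⟩ := SimpleGraph.exists_girth_eq_length.2 (fun h => h _ hw)
    have par : ∀ i j : Fin 34, (mkG 34 DataOdd.a).Adj i j →
        (DataOdd.T 0 i + DataOdd.T 0 j) % 2 = 1 := fun i j h => by
      have := all2_spec _ _ parity i j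
      rw [(hG _ _).1 h] at this
      simpa using this
    have ev : ∀ (i j : Fin 34) (q : (mkG 34 DataOdd.a).Walk i j),
        (DataOdd.T 0 i + DataOdd.T 0 j + q.length) % 2 = 0 := by
      intro i j q
      induction q with
      | nil => simp only [SimpleGraph.Walk.length_nil]; omega
      | cons h q ih =>
        have := par _ _ h
        rw [SimpleGraph.Walk.length_cons]
        omega
    have e1 := ev x x p
    have e2 := hp.three_le_length
    omega

end Pool.Agent.Results.MP_67c69b_co.OddGirthFour
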